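import Pool.Agent.Helper29.H2.St3

/-!
# Project H2, module CK: the kernel computation
-/

set_option autoImplicit false
set_option maxRecDepth 100000

namespace Pool.Agent.Helper29.H2

theorem hCk : StCk := by
  unfold StCk
  decide +kernel

end Pool.Agent.Helper29.H2
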