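import Pool.Agent.Helper29.H2.St2

/-!
# Project H2, module GM: `GF` is a bounded cell function
-/

set_option autoImplicit false

namespace Pool.Agent.Helper29.H2

open Finset MeasureTheory

theorem hGm : StGm := by
  intro ι _ _ N n0 Bg BH g H hn hg hH hz
  refine ⟨(BH : ℝ) * (Bg : ℝ) ^ Fintype.card ι + 1, by positivity, ?_, ?_⟩
  · intro i t
    unfold GF
    split_ifs with ht
    · rw [abs_of_nonneg (by positivity)]
      have h1 : ∏ h, (g (i h) : ℝ) ≤ (Bg : ℝ) ^ Fintype.card ι := by
        calc ∏ h, (g (i h) : ℝ) ≤ ∏ _h : ι, (Bg : ℝ) :=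
              Finset.prod_le_prod (fun _ _ => Nat.cast_nonneg _)
                (fun h _ => by exact_mod_cast hg (i h))
          _ = (Bg : ℝ) ^ Fintype.card ι := by rw [Finset.prod_const, Finset.card_univ]
      have h2 : (H (∑ h, i h) : ℝ) ≤ BH := by exact_mod_cast hH _
      have h3 : (0 : ℝ) ≤ ∏ h, (g (i h) : ℝ) := Finset.prod_nonneg fun _ _ => Nat.cast_nonneg _
      have h4 := mul_le_mul h2 h1 h3 (Nat.cast_nonneg BH)
      linarith
    · rw [abs_zero]
      positivity
  · intro i t h
    unfold GF at h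
    split_ifs at h with ht
    · refine ⟨fun k => ?_, ht⟩
      by_contra hk
      push Not at hk
      apply h
      have h1 : N ≤ ∑ h, i h := hk.trans (Finset.single_le_sum (f := i)
        (fun _ _ => Nat.zero_le _) (Finset.mem_univ k))
      rw [hz _ (hn.trans h1)]
      simp
    · exact absurd rfl h

end Pool.Agent.Helper29.H2
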