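import Pool.Agent.Helper29.H2.St3

/-!
# Project H2, module LN: linearisation of the square
-/

set_option autoImplicit false

namespace Pool.Agent.Helper29.H2

open Finset

theorem hLn : StLn := by
  intro g H v L a n0 c e h
  have hX : ∑ T ∈ range n0, H T * ∑ i ∈ range (T + 1), (v i * L i) * g (T - i) =
      ∑ S ∈ range n0, Kk g H n0 S * (v S * L S) := by
    have h1 : ∑ T ∈ range n0, H T * ∑ i ∈ range (T + 1), (v i * L i) * g (T - i) =
        ∑ T ∈ range n0, ∑ i ∈ range (T + 1), (fun S j => g j * H (S + j) * (v S * L S)) i (T - i) := by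
      refine sum_congr rfl fun T _ => ?_
      rw [mul_sum]
      refine sum_congr rfl fun i hi => ?_
      have h2 : i + (T - i) = T := by
        have := mem_range.1 hi
        omega
      show H T * (v i * L i * g (T - i)) = g (T - i) * H (i + (T - i)) * (v i * L i)
      rw [h2]
      ring
    refine (h1.trans (sum_range_diag_flip n0
      (fun S j => g j * H (S + j) * (v S * L S)))).trans ?_
    refine sum_congr rfl fun S _ => ?_
    unfold Kk
    rw [sum_mul]
  rw [hX]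
  have h3 : 2 ^ e * (2 * 2 ^ c * ∑ S ∈ range n0, Kk g H n0 S * (v S * L S)) =
      ∑ S ∈ range n0, 2 ^ e * (2 * 2 ^ c * (Kk g H n0 S * (v S * L S))) := by
    rw [mul_sum, mul_sum]
  have h4 : 2 ^ e * (2 ^ (2 * c) * ∑ S ∈ range n0, v S * v S * L S) =
      ∑ S ∈ range n0, 2 ^ e * (2 ^ (2 * c) * (v S * v S * L S)) := by
    rw [mul_sum, mul_sum]
  rw [h3, h4, ← sum_add_distrib]
  refine sum_le_sum fun S hS => ?_
  have h5 := h S (mem_range.1 hS)
  have h6 : 2 * Kk g H n0 S * (2 ^ c * v S) ≤ Kk g H n0 S ^ 2 + (2 ^ c * v S) ^ 2 :=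
    two_mul_le_add_sq _ _
  have h7 : 2 ^ e * (2 * 2 ^ c * (Kk g H n0 S * (v S * L S))) =
      (L S * 2 ^ e) * (2 * Kk g H n0 S * (2 ^ c * v S)) := by ring
  have h8 : 2 ^ e * (2 ^ (2 * c) * (v S * v S * L S)) = (L S * 2 ^ e) * (2 ^ c * v S) ^ 2 := by
    rw [pow_mul']
    ring
  rw [h7, h8]
  calc (L S * 2 ^ e) * (2 * Kk g H n0 S * (2 ^ c * v S))
      ≤ (L S * 2 ^ e) * (Kk g H n0 S ^ 2 + (2 ^ c * v S) ^ 2) := Nat.mul_le_mul_left _ h6
    _ = Kk g H n0 S ^ 2 * (L S * 2 ^ e) + (L S * 2 ^ e) * (2 ^ c * v S) ^ 2 := by ring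
    _ ≤ _ := Nat.add_le_add_right (Nat.mul_le_mul_left _ h5) _

end Pool.Agent.Helper29.H2
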