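import Pool.Agent.Helper29.H2.St3

/-!
# Project H2, module NR: from integers to the real inequality
-/

set_option autoImplicit false

noncomputable section

namespace Pool.Agent.Helper29.H2

open Finset MeasureTheory
open Pool.Agent.Helper27.BG

theorem lk_zero (w : ℕ → ℕ → ℕ) : ∀ (t : List (ℕ × ℕ × ℕ)) (S : ℕ), ln t ≤ S → lk w t S = 0
  | [], _, _ => rfl
  | (l, h, v) :: t, S, hS => by
    have h1 : l + ln t ≤ S := hS
    show (if S < l then w h v else lk w t (S - l)) = 0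
    rw [if_neg (by omega)]
    exact lk_zero w t (S - l) (by omega)

theorem lk_le (w : ℕ → ℕ → ℕ) (B : ℕ) : ∀ (t : List (ℕ × ℕ × ℕ)),
    (∀ p ∈ t, w p.2.1 p.2.2 ≤ B) → ∀ S, lk w t S ≤ B
  | [], _, _ => Nat.zero_le _
  | (l, h, v) :: t, hB, S => by
    show (if S < l then w h v else lk w t (S - l)) ≤ B
    split_ifs
    · exact hB (l, h, v) (List.mem_cons_self ..)
    · exact lk_le w B t (fun p hp => hB p (List.mem_cons_of_mem _ hp)) (S - l)

theorem ln_tbl : ln tbl = 129236 := by decide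

theorem HT_zero (S : ℕ) (hS : 129236 ≤ S) : HT S = 0 :=
  lk_zero _ _ _ (by rw [ln_tbl]; exact hS)

theorem HT_le (S : ℕ) : HT S ≤ 4000 := lk_le _ _ _ (by decide) S

theorem vT_le (S : ℕ) : vT S ≤ 8122 := lk_le _ _ _ (by decide) S

theorem gT_le (i : ℕ) : gT i ≤ 2 ^ 22 := by
  unfold gT gv
  have h : 37 ≤ 8 * (i / bl i * bl i) + 4 * bl i + 37 := by omega
  calc 2 ^ 27 / (8 * (i / bl i * bl i) + 4 * bl i + 37) ≤ 2 ^ 27 / 37 :=
        Nat.div_le_div_left h (by norm_num)
    _ ≤ 2 ^ 22 := by norm_num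

private theorem nr_card {ι : Type} [Fintype ι] [DecidableEq ι] (m : ι) :
    Fintype.card {h : ι // h ≠ m} = Fintype.card ι - 1 := by
  rw [Fintype.card_subtype_compl, Fintype.card_subtype_eq]

theorem hNr : StNr := by
  intro hGm hV1 hV2 hCm hEi hEo hCh hnum ι _ _ hc
  have hHz : ∀ S, 129236 ≤ S → HT S = 0 := HT_zero
  obtain ⟨hIle, hIpos⟩ := hEi hV1 hCm ι 131072 129236 gT HT (by norm_num) (by norm_num) hHz
  have hH0 : HT 0 ≠ 0 := by decide
  have hg0 : gT 0 ≠ 0 := by
    unfold gT bl gv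
    norm_num
  refine ⟨hGm ι 131072 129236 (2 ^ 22) 4000 gT HT (by norm_num) gT_le HT_le hHz,
    hIpos hH0 hg0, ?_⟩
  intro m
  have hcm : Fintype.card {h : ι // h ≠ m} = 3520 := by rw [nr_card, hc]
  have hO := hEo hV2 hCm ι 131072 129236 76 (1 / 10000) gT HT m (by norm_num) (by norm_num) hHz
    (by norm_num) (hCh _ hcm) (by rw [hc])
  have hA : AA gT HT 129236 (Fintype.card ι) = AA gT HT 129236 3521 := by rw [hc]
  have hB : BB gT HT 129236 (Fintype.card ι - 1) = BB gT HT 129236 3520 := by rw [hc]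
  rw [hA] at hIle
  rw [hB] at hO
  have hcR : (Fintype.card ι : ℝ) = 3521 := by rw [hc]; norm_num
  rw [hcR]
  have hn : (10002 * 2 * 131072 * 10000 : ℝ) * (AA gT HT 129236 3521 : ℝ) <
      3521 * 2499 * 9999 * (BB gT HT 129236 3520 : ℝ) := by exact_mod_cast hnum
  generalize (AA gT HT 129236 3521 : ℝ) = A at hIle hn
  generalize (BB gT HT 129236 3520 : ℝ) = B at hO hn
  rw [pow_succ] at hO
  have hN : (((131072 : ℕ) : ℝ)) = 131072 := by norm_num
  rw [hN] at hO hIle
  have hX : (0 : ℝ) < (131072 : ℝ) ^ Fintype.card ι := by positivity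
  generalize (131072 : ℝ) ^ Fintype.card ι = X at hO hIle hX
  have h1 : (10002 / 10000 : ℝ) * (2 : ℕ) * (A / X) <
      3521 * (2499 / 10000) * ((1 - 1 / 10000) * B / (X * 131072)) := by
    have e1 : (10002 / 10000 : ℝ) * (2 : ℕ) * (A / X) =
        (10002 * 2 * 131072 * 10000 * A) / (X * 131072 * 10000 * 10000) := by
      push_cast
      field_simp
    have e2 : 3521 * (2499 / 10000) * ((1 - 1 / 10000) * B / (X * 131072)) =
        (3521 * 2499 * 9999 * B) / (X * 131072 * 10000 * 10000) := by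
      field_simp
      ring
    rw [e1, e2]
    exact div_lt_div_of_pos_right hn (by positivity)
  calc (10002 / 10000 : ℝ) * (2 : ℕ) * IG 131072 (GF 131072 gT HT : (ι → ℕ) → ℕ → ℝ)
      ≤ (10002 / 10000 : ℝ) * (2 : ℕ) * (A / X) :=
        mul_le_mul_of_nonneg_left hIle (by norm_num)
    _ < 3521 * (2499 / 10000) * ((1 - 1 / 10000) * B / (X * 131072)) := h1
    _ ≤ _ := mul_le_mul_of_nonneg_left hO (by norm_num)

end Pool.Agent.Helper29.H2
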