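import Pool.Agent.Helper29.H2.St1
import Pool.Agent.Helper90.MT.Lam

/-!
# Project H2, module OK (standing assumptions; copy of Helper34/BG/M_OKW)
-/

set_option autoImplicit false

noncomputable section

namespace Pool.Agent.Helper29.H2

open Finset MeasureTheory
open Pool.Agent.Helper90.MT (lam mat wt szA prt szU VV DD piDD Ok EqD Avd)
open Pool.Agent.Helper27.BG

lemma ok_prime (W M : ℕ) (i : Pw W M) : (pw W M i).Prime ∧ ¬ pw W M i ∣ W ∧ pw W M i ≤ M := by
  have h := i.2
  unfold Pw at h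
  simp only [mem_filter, mem_range] at h
  exact ⟨h.2.1, h.2.2.2, by unfold pw; omega⟩

lemma ok_large (w W M : ℕ) (hd : Dv w W) (i : Pw W M) : w < pw W M i := by
  obtain ⟨h1, h2, _⟩ := ok_prime W M i
  by_contra h
  exact h2 (hd.2 _ h1 (not_lt.1 h))

lemma ok_sum (w W M : ℕ) (hw : 1 ≤ w) (hd : Dv w W) (hM : w ≤ M) :
    ∑ i, 1 / (pw W M i : ℝ) ^ 2 ≤ (1 : ℝ) / w := by
  have h1 : ∑ i, 1 / (pw W M i : ℝ) ^ 2 = ∑ p ∈ Pw W M, ((p : ℝ) ^ 2)⁻¹ := by
    rw [← Finset.sum_coe_sort (Pw W M) (fun p => ((p : ℝ) ^ 2)⁻¹)]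
    apply Finset.sum_congr rfl
    intro i _
    simp [pw]
  rw [h1]
  calc ∑ p ∈ Pw W M, ((p : ℝ) ^ 2)⁻¹ ≤ ∑ p ∈ Ioc w M, ((p : ℝ) ^ 2)⁻¹ := by
        apply Finset.sum_le_sum_of_subset_of_nonneg
        · intro p hp
          have h2 := ok_large w W M hd ⟨p, hp⟩
          have h3 := (ok_prime W M ⟨p, hp⟩).2.2
          simp only [pw] at h2 h3
          exact Finset.mem_Ioc.2 ⟨h2, h3⟩
        · intro p _ _
          positivity
    _ ≤ (w : ℝ)⁻¹ - (M : ℝ)⁻¹ := sum_Ioc_inv_sq_le_sub (by omega) hM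
    _ ≤ 1 / w := by
        rw [one_div]
        have : (0 : ℝ) ≤ (M : ℝ)⁻¹ := by positivity
        linarith

lemma ok_log {ι : Type} [Fintype ι] [DecidableEq ι] (N W M : ℕ) (a : Pw W M → Option ι) :
    (N : ℝ) * ∑ h, ud M (prt (pw W M) a h) =
      (N : ℝ) * (Real.log (szA (pw W M) a) / Real.log (RR M)) := by
  unfold ud
  congr 1
  rw [← Finset.sum_div]
  congr 1
  rw [Pool.Agent.Helper90.MT.LamAux.szA_eq]
  push_cast
  rw [Real.log_prod]
  intro h _
  have : prt (pw W M) a h ≠ 0 := by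
    unfold Pool.Agent.Helper90.MT.prt
    apply Finset.prod_ne_zero_iff.2
    intro i _
    split_ifs
    · exact (ok_prime W M i).1.ne_zero
    · exact one_ne_zero
  exact_mod_cast this

theorem hOk : StOk := by
  intro ι _ _ N sh w W v hN hw1 hw hG
  refine ⟨max w 2, ?_⟩
  intro M hM
  have hN' : (0 : ℝ) < N := by exact_mod_cast hN
  have hMw : w ≤ M := (le_max_left _ _).trans hM
  have hM2 : 2 ≤ M := (le_max_right _ _).trans hM
  have hR : 1 < RR M := by
    unfold RR
    apply Real.one_lt_rpow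
    · exact_mod_cast hM2
    · norm_num
  have hlR : 0 < Real.log (RR M) := Real.log_pos hR
  have hs0 : ∀ a : Pw W M → Option ι, 0 < (szA (pw W M) a : ℝ) := by
    intro a
    exact_mod_cast Pool.Agent.Helper90.MT.LamAux.szA_pos (pw W M) (fun i => (ok_prime W M i).1) a
  have hs1 : ∀ a : Pw W M → Option ι, 1 ≤ (szA (pw W M) a : ℝ) := by
    intro a
    exact_mod_cast Pool.Agent.Helper90.MT.LamAux.szA_pos (pw W M) (fun i => (ok_prime W M i).1) a
  have key : ∀ (a : Pw W M → Option ι) (T : ℕ), tN N M (prt (pw W M) a) < T →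
      (szA (pw W M) a : ℝ) < RR M ^ ((T : ℝ) / N) := by
    intro a T
    unfold tN
    rw [ok_log, Nat.floor_lt (by
      have : 0 ≤ Real.log (szA (pw W M) a) := Real.log_nonneg (hs1 a)
      positivity), ← Real.log_lt_log_iff (hs0 a) (by positivity),
      Real.log_rpow (by positivity)]
    intro h
    have h2 : (N : ℝ) * (Real.log (szA (pw W M) a) / Real.log (RR M)) * Real.log (RR M) <
        T * Real.log (RR M) := mul_lt_mul_of_pos_right h hlR
    have h3 : (N : ℝ) * (Real.log (szA (pw W M) a) / Real.log (RR M)) * Real.log (RR M) =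
        N * Real.log (szA (pw W M) a) := by
      field_simp
    rw [h3] at h2
    rw [div_mul_eq_mul_div, lt_div_iff₀ hN']
    linarith
  refine ⟨⟨fun i => (ok_prime W M i).1, ?_, ?_, ?_, hG.dv.1, ?_, hG.cop⟩,
    ok_sum w W M (by omega) hG.dv hMw, hR, ?_⟩
  · intro i j h
    exact Subtype.ext h
  · intro i
    have := ok_large w W M hG.dv i
    omega
  · intro i h h' hne hmod
    have h1 := ok_large w W M hG.dv i
    have h2 := hG.lt h
    have h3 := hG.lt h'
    have h4 : sh h = sh h' := Nat.ModEq.eq_of_lt_of_lt hmod (h2.trans h1) (h3.trans h1)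
    exact hne (hG.inj h4)
  · intro i
    exact (Nat.Prime.coprime_iff_not_dvd (ok_prime W M i).1).2 (ok_prime W M i).2.1
  · intro a T h
    exact (key a T h).le

end Pool.Agent.Helper29.H2
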