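import Pool.Agent.Helper29.H2.St1

/-!
# Project H2, module VS: sums of squares of the marginal (copy of Helper3/BG/M_VSQ)
-/

set_option autoImplicit false

namespace Pool.Agent.Helper29.H2

open Finset MeasureTheory
open Pool.Agent.Helper90.MT (lam mat wt szA prt szU VV DD piDD Ok EqD Avd)
open Pool.Agent.Helper27.BG

private lemma pw_prime_VS (W M : ℕ) (i : Pw W M) : (pw W M i).Prime := by
  have h := i.2
  unfold Pw at h
  exact (Finset.mem_filter.1 h).2.1

private lemma pw_inj_VS (W M : ℕ) : Function.Injective (pw W M) := Subtype.val_injective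

private lemma SS_nonneg_VS (W M : ℕ) : 0 ≤ SS W M := by
  unfold SS
  refine mul_nonneg (by positivity) ?_
  unfold RR
  rcases Nat.eq_zero_or_pos M with h | h
  · subst h
    rw [Nat.cast_zero, Real.zero_rpow (by norm_num), Real.log_zero]
  · exact Real.log_nonneg (Real.one_le_rpow (by exact_mod_cast h) (by norm_num))

theorem hVs : StVs := by
  intro hTV2 hErr hMer hC2 hMul hOne hSWs hDDw ι _ _ m N G B hN hB hG ε hε
  obtain ⟨hFB, hFs⟩ := hG
  obtain ⟨K, hK⟩ : ∃ K, K = Fintype.card ι := ⟨_, rfl⟩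
  obtain ⟨w₁, hw₁⟩ := hErr hMer (K + 1) 0 (ε / (2 * (B ^ 2 + 1))) (by positivity)
  obtain ⟨w₂, hw₂⟩ := hC2 hMul hOne hSWs hDDw ι m N G hN hFs (ε / 2) (by positivity)
  refine ⟨max w₁ w₂, fun w hw W hW => ?_⟩
  obtain ⟨M₁, hM₁⟩ := hw₁ w (le_of_max_le_left hw) W hW
  obtain ⟨M₂, hM₂⟩ := hw₂ w (le_of_max_le_right hw) W hW
  refine ⟨max M₁ M₂, fun M hM => ?_⟩
  have h1 := (hM₁ M (le_of_max_le_left hM)).2
  have h2 := hM₂ M (le_of_max_le_right hM)
  have h3 := hTV2 (Pw W M) ι (pw W M) m (fun x => G (fun h => cN N M (x h)) (tN N M x))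
    (fun _ => 1) B 1 (pw_prime_VS W M) (pw_inj_VS W M) hB.le zero_le_one (fun x => hFB _ _)
    (fun x => by norm_num)
  rw [← hK] at h2 h3 ⊢
  have hS : 0 ≤ SS W M ^ (K + 1) := pow_nonneg (SS_nonneg_VS W M) _
  have h4 : 1 * B ^ 2 * Et (pw W M) (K + 1) ≤ ε / 2 * SS W M ^ (K + 1) := by
    have h5 : 1 * B ^ 2 * Et (pw W M) (K + 1) ≤
        1 * B ^ 2 * (ε / (2 * (B ^ 2 + 1)) * SS W M ^ (K + 1)) :=
      mul_le_mul_of_nonneg_left h1 (by positivity)
    refine h5.trans ?_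
    have h6 : 1 * B ^ 2 * (ε / (2 * (B ^ 2 + 1))) ≤ ε / 2 := by
      have h7 : 0 < B ^ 2 + 1 := by positivity
      rw [← mul_div_assoc, div_le_div_iff₀ (by positivity) (by norm_num)]
      nlinarith
    calc 1 * B ^ 2 * (ε / (2 * (B ^ 2 + 1)) * SS W M ^ (K + 1)) =
        1 * B ^ 2 * (ε / (2 * (B ^ 2 + 1))) * SS W M ^ (K + 1) := by ring
      _ ≤ _ := mul_le_mul_of_nonneg_right h6 hS
  simp only [one_mul] at h3 h4
  have h7 := abs_sub_le
    (∑ a, Vm (pw W M) m (YG N G W M) a ^ 2 / szA (pw W M) a)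
    (∑ x ∈ (piDD ι (pw W M)).filter (fun x => x m = 1),
      (∑ c ∈ DD (pw W M), G (fun h => cN N M (Function.update x m c h))
        (tN N M (Function.update x m c)) / (c : ℝ)) ^ 2 / ∏ h, (x h : ℝ))
    (SS W M ^ (K + 1) * OG N G m)
  refine h7.trans ?_
  have h8 := add_le_add (h3.trans h4) h2
  refine h8.trans (le_of_eq ?_)
  ring

end Pool.Agent.Helper29.H2
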