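import Pool.Agent.Helper27.BG.St3

/-!
# Project H2 (MP_3ec731_nt, three consecutive primes in a bounded interval): statements, part 1

The Maynard-Tao sieve of project BG (Helper27/BG/St1, St2, St3) for an arbitrary number of shifts,
an arbitrary number `N` of cells per unit and an arbitrary cell function `G`, at level 1 (no part
of the function above the level, no majorant). All modules of this part are proofs of project BG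
with the constants replaced: 1000 ↦ `N`, 1055 ↦ `N`, 2000 ↦ `2 * N`, 49 ↦ `Fintype.card ι`,
`FN ↦ G`. Paper: /team-store/MP_3ec731-H2.md
-/

set_option autoImplicit false

noncomputable section

namespace Pool.Agent.Helper29.H2

open Finset MeasureTheory
open Pool.Agent.Helper90.MT (lam mat wt szA prt szU VV DD piDD Ok EqD Avd MP SW)
open Pool.Agent.Helper60.GP (IsB JJ)
open Pool.Agent.Helper15.AB (Th)
open Pool.Agent.Helper27.BG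

/-- cell of a normalised size, `N` cells per unit -/
def cN (N M d : ℕ) : ℕ := ⌊(N : ℝ) * ud M d⌋₊

/-- cell of the total size of a tuple -/
def tN {κ : Type} [Fintype κ] (N M : ℕ) (x : κ → ℕ) : ℕ := ⌊(N : ℝ) * ∑ h, ud M (x h)⌋₊

/-- cell with prescribed cells of the coordinates and of the sum -/
def c1 {κ : Type} [Fintype κ] (N : ℕ) (i : κ → ℕ) (t : ℕ) : Set (κ → ℝ) :=
  {u | (∀ h, 0 ≤ u h ∧ ⌊(N : ℝ) * u h⌋₊ = i h) ∧ ⌊(N : ℝ) * ∑ h, u h⌋₊ = t}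

/-- cell for the square of the marginal in direction `m`: `none` is the second copy of the
variable `m` -/
def c2 {ι : Type} [Fintype ι] [DecidableEq ι] (N : ℕ) (m : ι) (i : ι → ℕ) (i' t1 t2 : ℕ) :
    Set (Option ι → ℝ) :=
  {u | (∀ h, 0 ≤ u h) ∧ (∀ h : ι, ⌊(N : ℝ) * u (some h)⌋₊ = i h) ∧ ⌊(N : ℝ) * u none⌋₊ = i' ∧
    ⌊(N : ℝ) * ∑ h, u (some h)⌋₊ = t1 ∧
    ⌊(N : ℝ) * (∑ h ∈ univ.erase m, u (some h) + u none)⌋₊ = t2}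

/-- bounded cell function supported below level 1 -/
def GB {ι : Type} (N : ℕ) (G : (ι → ℕ) → ℕ → ℝ) (B : ℝ) : Prop :=
  (∀ i t, |G i t| ≤ B) ∧ ∀ i t, G i t ≠ 0 → (∀ h, i h < N) ∧ t < N

section
variable {ι : Type} [Fintype ι] [DecidableEq ι]

/-- the sieve function -/
def YG (N : ℕ) (G : (ι → ℕ) → ℕ → ℝ) (W M : ℕ) (a : Pw W M → Option ι) : ℝ :=
  G (fun h => cN N M (prt (pw W M) a h)) (tN N M (prt (pw W M) a))

/-- `∫ F²` -/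
def IG (N : ℕ) (G : (ι → ℕ) → ℕ → ℝ) : ℝ :=
  ∑ i ∈ Fintype.piFinset (fun _ : ι => range N), ∑ t ∈ range N,
    G i t ^ 2 * (volume (c1 N i t)).toReal

/-- `∫ F_m²` -/
def OG (N : ℕ) (G : (ι → ℕ) → ℕ → ℝ) (m : ι) : ℝ :=
  ∑ i ∈ Fintype.piFinset (fun _ : ι => range N), ∑ i' ∈ range N,
    ∑ t1 ∈ range N, ∑ t2 ∈ range N, G i t1 * G (Function.update i m i') t2 *
      (volume (c2 N m i i' t1 t2)).toReal

end

/-- C1: sums of cell functions over tuples.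
Proof: copy of Helper12/BG/M_CL1.lean (1000 ↦ `(N : ℝ)`, `T = N ≤ 2000 ↦ N ≤ 2 * N`; the cells
lie in `[0,1)^κ ⊆ [0,2)^κ`). -/
def StC1 : Prop := StMul → StOne → StSWs → StDDw →
  ∀ (κ : Type) [Fintype κ] [DecidableEq κ] (N : ℕ) (Γ : (κ → ℕ) → ℕ → ℝ), 0 < N →
  (∀ i t, Γ i t ≠ 0 → (∀ h, i h < N) ∧ t < N) → ∀ ε : ℝ, 0 < ε → ∃ w₀ : ℕ, ∀ w ≥ w₀, ∀ W : ℕ,
  Dv w W → ∃ M₁ : ℕ, ∀ M ≥ M₁,
  |∑ x ∈ piDD κ (pw W M), Γ (fun h => cN N M (x h)) (tN N M x) / ∏ h, (x h : ℝ) -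
    SS W M ^ Fintype.card κ * ∑ i ∈ Fintype.piFinset (fun _ : κ => range N), ∑ t ∈ range N,
      Γ i t * (volume (c1 N i t)).toReal| ≤ ε * SS W M ^ Fintype.card κ

/-- C2: sums of squares of marginals.
Proof: copy of Helper80/BG/M_CL2.lean without `φ` and `t0` (the index set of the cells is
`(ι → ℕ) × ℕ × ℕ × ℕ`). -/
def StC2 : Prop := StMul → StOne → StSWs → StDDw →
  ∀ (ι : Type) [Fintype ι] [DecidableEq ι] (m : ι) (N : ℕ) (Γ : (ι → ℕ) → ℕ → ℝ), 0 < N →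
  (∀ i t, Γ i t ≠ 0 → (∀ h, i h < N) ∧ t < N) → ∀ ε : ℝ, 0 < ε → ∃ w₀ : ℕ, ∀ w ≥ w₀,
  ∀ W : ℕ, Dv w W → ∃ M₁ : ℕ, ∀ M ≥ M₁,
  (open Classical in
  |∑ x ∈ (piDD ι (pw W M)).filter (fun x => x m = 1),
      (∑ c ∈ DD (pw W M), Γ (fun h => cN N M (Function.update x m c h))
        (tN N M (Function.update x m c)) / (c : ℝ)) ^ 2 / ∏ h, (x h : ℝ) -
    SS W M ^ (Fintype.card ι + 1) *
      ∑ i ∈ Fintype.piFinset (fun _ : ι => range N), ∑ i' ∈ range N,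
      ∑ t1 ∈ range N, ∑ t2 ∈ range N, Γ i t1 * Γ (Function.update i m i') t2 *
        (volume (c2 N m i i' t1 t2)).toReal| ≤ ε * SS W M ^ (Fintype.card ι + 1))

/-- OK: standing assumptions hold for large `M`.
Proof: copy of Helper34/BG/M_OKW.lean. -/
def StOk : Prop := ∀ (ι : Type) [Fintype ι] [DecidableEq ι] (N : ℕ) (sh : ι → ℕ) (w W v : ℕ),
  0 < N → 1 ≤ w → 2 * Fintype.card ι ≤ w → Gd sh w W v → ∃ M₁ : ℕ, ∀ M ≥ M₁,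
    Ok (pw W M) sh (Fintype.card ι) W v ∧ (∑ i, 1 / (pw W M i : ℝ) ^ 2 ≤ (1 : ℝ) / w) ∧
    1 < RR M ∧ ∀ (a : Pw W M → Option ι) (T : ℕ), tN N M (prt (pw W M) a) < T →
      (szA (pw W M) a : ℝ) ≤ RR M ^ ((T : ℝ) / N)

/-- MN: the sum over all integers.
Proof: copy of Helper85/BG/M_MIN.lean. `K = Fintype.card ι`; `YG a ≠ 0` implies `szA a ≤ RR M` (OK
with `T = N`), so `∑ |lam| ≤ B RR (1 + log RR)^(2K)` and `C (∑ |lam|)² ≤ C B² M^0.4998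
(1 + log M)^(4K) = o(M)`. -/
def StMn : Prop := StTup → StErr → StMer → StC1 → StMul → StOne → StSWs → StDDw → StLm →
  StOk → StEta →
  ∀ (ω : ℝ → ℝ), IsB ω → 0 < JJ ω → ∀ (ι : Type) [Fintype ι] [DecidableEq ι] (N : ℕ)
  (G : (ι → ℕ) → ℕ → ℝ) (B : ℝ) (sh : ι → ℕ), 0 < N → 0 < B → GB N G B →
  ∀ ε : ℝ, 0 < ε → ∃ w₀ : ℕ, ∀ w ≥ w₀, ∀ W v : ℕ, Gd sh w W v →
  ∃ M₁ : ℕ, ∀ M ≥ M₁,
  ∑ n ∈ (range (4 * M + 1)).filter (fun n => n ≡ v [MOD W]),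
    eta ω M n * LF (pw W M) sh (YG N G W M) n ^ 2 ≤
    JJ ω * M / W * SS W M ^ Fintype.card ι * (IG N G + ε)

/-- the conclusion of `StMn` -/
def MnC : Prop :=
  ∀ (ω : ℝ → ℝ), IsB ω → 0 < JJ ω → ∀ (ι : Type) [Fintype ι] [DecidableEq ι] (N : ℕ)
  (G : (ι → ℕ) → ℕ → ℝ) (B : ℝ) (sh : ι → ℕ), 0 < N → 0 < B → GB N G B →
  ∀ ε : ℝ, 0 < ε → ∃ w₀ : ℕ, ∀ w ≥ w₀, ∀ W v : ℕ, Gd sh w W v →
  ∃ M₁ : ℕ, ∀ M ≥ M₁,
  ∑ n ∈ (range (4 * M + 1)).filter (fun n => n ≡ v [MOD W]),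
    eta ω M n * LF (pw W M) sh (YG N G W M) n ^ 2 ≤
    JJ ω * M / W * SS W M ^ Fintype.card ι * (IG N G + ε)

/-- VS: sums of squares of the marginal.
Proof: copy of Helper3/BG/M_VSQ.lean with `φ = 1`, `b = 1` (TV2 with `φ = fun _ => 1`). -/
def StVs : Prop := StTV2 → StErr → StMer → StC2 → StMul → StOne → StSWs → StDDw →
  ∀ (ι : Type) [Fintype ι] [DecidableEq ι] (m : ι) (N : ℕ) (G : (ι → ℕ) → ℕ → ℝ) (B : ℝ),
  0 < N → 0 < B → GB N G B → ∀ ε : ℝ, 0 < ε → ∃ w₀ : ℕ, ∀ w ≥ w₀, ∀ W : ℕ, Dv w W →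
  ∃ M₁ : ℕ, ∀ M ≥ M₁,
  |∑ a, Vm (pw W M) m (YG N G W M) a ^ 2 / szA (pw W M) a -
    SS W M ^ (Fintype.card ι + 1) * OG N G m| ≤ ε * SS W M ^ (Fintype.card ι + 1)

/-- the conclusion of `StVs` -/
def VsC : Prop :=
  ∀ (ι : Type) [Fintype ι] [DecidableEq ι] (m : ι) (N : ℕ) (G : (ι → ℕ) → ℕ → ℝ) (B : ℝ),
  0 < N → 0 < B → GB N G B → ∀ ε : ℝ, 0 < ε → ∃ w₀ : ℕ, ∀ w ≥ w₀, ∀ W : ℕ, Dv w W →
  ∃ M₁ : ℕ, ∀ M ≥ M₁,
  |∑ a, Vm (pw W M) m (YG N G W M) a ^ 2 / szA (pw W M) a -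
    SS W M ^ (Fintype.card ι + 1) * OG N G m| ≤ ε * SS W M ^ (Fintype.card ι + 1)

/-- BL: the sum over the primes `n + sh m`.
Proof: as Helper69/BG/M_BLF.lean. If `fM (n + h) ≠ 0` then `n + h` is a prime larger than all the
sieving primes, so `LF (YG) n = LF (Vm YG) n` (MRG; see the beginning of the proof of
Helper40/BG/M_LOW.lean). Then BIL with `Y = Y' = Vm (pw W M) m (YG N G W M)` (`Vm Y a ≠ 0` implies
`Avd {m} a` and `szA a ≤ RR M` by VBD and OK with `T = N`), `f = fM`, `X = Th ω M`,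
`Qm = ⌊M^0.4999⌋`: `W szU ≤ W RR² = W M^0.4998 ≤ Qm`. Error term: PRS, LAM
(`|lam| ≤ B C SS (1 + log M)^K`), BVF with `k = (K+1)²`, `A = 2K + 3`. Form: FRM, error
`(B C SS)² Er (K-1) (3K²+4K) ≤ ε' SS^(K+1)` (ERR, MER, VBD), diagonal `∑ Vm²/szA`: VS.
`Th ω M = (JJ ω + o(1)) M` is the hypothesis on `Th`. -/
def StBl : Prop := StBil → StFrm → StLm → StPrs → StVbd → StMrg → StErr → StMer → StOk → StBVf →
  StEta → VsC → (∀ ω : ℝ → ℝ, IsB ω → ∀ ε : ℝ, 0 < ε → ∃ x₀ : ℝ, ∀ x : ℝ, x₀ ≤ x →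
    |Th ω x - JJ ω * x| ≤ ε * x) →
  ∀ (ω : ℝ → ℝ), IsB ω → 0 < JJ ω → ∀ (ι : Type) [Fintype ι] [DecidableEq ι] (N : ℕ)
  (G : (ι → ℕ) → ℕ → ℝ) (B : ℝ) (sh : ι → ℕ) (m : ι), 0 < N → 0 < B → GB N G B →
  ∀ ε : ℝ, 0 < ε → ∃ w₀ : ℕ, ∀ w ≥ w₀, ∀ W v : ℕ, Gd sh w W v → ∃ M₁ : ℕ, ∀ M ≥ M₁,
  |∑ n ∈ (range (4 * M + 1)).filter (fun n => n ≡ v [MOD W]), fM ω M (n + sh m) *
      LF (pw W M) sh (YG N G W M) n ^ 2 -
    JJ ω * M / W.totient * SS W M ^ (Fintype.card ι + 1) * OG N G m| ≤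
    ε * (JJ ω * M / W.totient * SS W M ^ (Fintype.card ι + 1))

/-- the conclusion of `StBl` -/
def BlC : Prop :=
  ∀ (ω : ℝ → ℝ), IsB ω → 0 < JJ ω → ∀ (ι : Type) [Fintype ι] [DecidableEq ι] (N : ℕ)
  (G : (ι → ℕ) → ℕ → ℝ) (B : ℝ) (sh : ι → ℕ) (m : ι), 0 < N → 0 < B → GB N G B →
  ∀ ε : ℝ, 0 < ε → ∃ w₀ : ℕ, ∀ w ≥ w₀, ∀ W v : ℕ, Gd sh w W v → ∃ M₁ : ℕ, ∀ M ≥ M₁,
  |∑ n ∈ (range (4 * M + 1)).filter (fun n => n ≡ v [MOD W]), fM ω M (n + sh m) *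
      LF (pw W M) sh (YG N G W M) n ^ 2 -
    JJ ω * M / W.totient * SS W M ^ (Fintype.card ι + 1) * OG N G m| ≤
    ε * (JJ ω * M / W.totient * SS W M ^ (Fintype.card ι + 1))

open Classical in
/-- MY: more than `ρ` primes among the shifts.
Proof: as Helper71/BG/M_TWO.lean. If for all `n` at most `ρ` of the `n + sh m` are prime, then
`∑_m fM (n + sh m) ≤ ρ log(5M) (eta n + C/M)` (the terms with `fM ≠ 0` are at most `ρ`, each at most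
`log(5M) (eta n + C/M)` by ETA); the rest is unchanged, with `K = Fintype.card ι`. -/
def StMy : Prop := MnC → BlC → StEta → StLm → StOk →
  (∀ L : ℝ, 0 < L → ∃ ω : ℝ → ℝ, IsB ω ∧ 0 < JJ ω ∧ ∀ t, ω t ≠ 0 → 0 < t ∧ t < L) →
  ∀ (ι : Type) [Fintype ι] [DecidableEq ι] (N : ℕ) (G : (ι → ℕ) → ℕ → ℝ) (B : ℝ) (ρ : ℕ),
  0 < Fintype.card ι → 0 < N → 0 < B → GB N G B → 1 ≤ ρ → 0 < IG N G →
  (∀ m : ι, (10002 / 10000 : ℝ) * ρ * IG N G < Fintype.card ι * (2499 / 10000) * OG N G m) →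
  ∀ sh : ι → ℕ, ∃ w₀ : ℕ, ∀ w ≥ w₀, ∀ W v : ℕ, Gd sh w W v → ∀ n₀ : ℕ, ∃ n ≥ n₀, n ≡ v [MOD W] ∧
    ρ < (univ.filter (fun m : ι => (n + sh m).Prime)).card

open Classical in
/-- FI: exact patterns, general number of primes.
Proof: as Helper34/BG/M_FIN.lean. Let `D = max H + 1`, `w` large. `Helper90.MT.StMod` with `T = H`,
`E = range D \ H`, `m = 1`. The hypothesis with `w ≥ w₀, D` gives infinitely many `n ≡ v [MOD W]` with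
more than `ρ` primes among the `n + h`; for `n > W`, `n + e` is composite for `e ∈ E`. Let `T(n)` be
the set of the `ρ + 1` smallest `h ∈ H` with `n + h` prime; pigeonhole over the subsets `T` of `H`. -/
def StFi : Prop := Pool.Agent.Helper90.MT.StMod → ∀ (ρ : ℕ) (H : Finset ℕ),
  (∃ w₀ : ℕ, ∀ w ≥ w₀, ∀ W v : ℕ, Gd (fun h : {x // x ∈ H} => (h : ℕ)) w W v → ∀ n₀ : ℕ,
    ∃ n ≥ n₀, n ≡ v [MOD W] ∧
      ρ < (univ.filter (fun m : {x // x ∈ H} => (n + (m : ℕ)).Prime)).card) →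
  (∀ p : ℕ, p.Prime → ∃ r : ℕ, ∀ h ∈ H, ¬ p ∣ r + h) →
  ∃ T ⊆ H, T.card = ρ + 1 ∧ {n : ℕ | ∀ k, (∃ s ∈ T, ∃ t ∈ T, n + s ≤ k ∧ k ≤ n + t) →
    (k.Prime ↔ ∃ t ∈ T, k = n + t)}.Infinite

end Pool.Agent.Helper29.H2
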