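import Pool.Agent.Helper29.H2.St1

/-!
# Project H2 (MP_3ec731_nt), statements, part 2: evaluation of the integrals of
`F(u) = H(∑ i_h) ∏ g(i_h) [∑ u < 1]`, `i_h = ⌊N u_h⌋`

The rounding error `∑ θ_h` (`u_h = (i_h + θ_h)/N`, `θ` uniform in the unit cube) is controlled by an
exponential moment (module CH); this is the only loss against the exact integral.
-/

set_option autoImplicit false

noncomputable section

namespace Pool.Agent.Helper29.H2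

open Finset MeasureTheory
open Pool.Agent.Helper27.BG

/-- the product cell function -/
def GF {ι : Type} [Fintype ι] (N : ℕ) (g H : ℕ → ℕ) (i : ι → ℕ) (t : ℕ) : ℝ :=
  if t < N then (H (∑ h, i h) : ℝ) * ∏ h, (g (i h) : ℝ) else 0

/-- coefficient of `z^S` in `(∑ g(i)² z^i)^n` -/
def cf (g : ℕ → ℕ) (n S : ℕ) : ℕ := PowerSeries.coeff S (PowerSeries.mk (fun i => g i ^ 2) ^ n)

/-- numerator of `∫ F²` (upper bound) -/
def AA (g H : ℕ → ℕ) (n0 K : ℕ) : ℕ := ∑ S ∈ range n0, H S ^ 2 * cf g K S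

/-- marginal -/
def Kk (g H : ℕ → ℕ) (n0 S : ℕ) : ℕ := ∑ i ∈ range (n0 - S), g i * H (S + i)

/-- numerator of `∫ F_m²` -/
def BB (g H : ℕ → ℕ) (n0 n : ℕ) : ℕ := ∑ S ∈ range n0, Kk g H n0 S ^ 2 * cf g n S

/-- the bad event -/
def Bd (κ : Type) [Fintype κ] (s : ℕ) : Set (κ → ℝ) :=
  {θ | (∀ h, 0 ≤ θ h ∧ θ h < 1) ∧ (Fintype.card κ : ℝ) / 2 + s ≤ ∑ h, θ h}

/-- CH: Chernoff bound. Proof: with `λ = 1/4`,
`1_{Bd} ≤ exp (λ (∑ (θ h - 1/2) - 76))` on the unit cube, and `∫ over [0,1)^κ = (∫_0^1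
exp (λ (x - 1/2)) dx)^3520 exp (-19)` (`MeasureTheory.integral_fintype_prod_eq_pow`, or the
`lintegral` version). By symmetry `∫_0^1 exp (λ (x-1/2)) dx = ∫_0^1 cosh (λ (x-1/2)) dx`, and
`cosh y ≤ exp (y²/2) ≤ 1 + y²/2 + y⁴/4` (for `y²/2 ≤ 1`: `exp z ≤ 1 + z + z²`), so the integral is
`≤ 1 + λ²/24 + λ⁴/320 ≤ exp (λ²/24 + λ⁴/320)`; `3520 * (1/384 + 1/81920) ≤ 9.21`, and
`exp (9.21 - 19) ≤ 1/10000` since `exp 1 ≥ 2.7182`. (Instead of cosh one may use directly the primitive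
`(exp (λ/2) - exp (-λ/2))/λ` and numerical bounds for `exp (1/8)`: it must be `≤ exp (0.002618)`.) -/
def StCh : Prop := ∀ (κ : Type) [Fintype κ], Fintype.card κ = 3520 →
  (volume (Bd κ 76)).toReal ≤ 1 / 10000

/-- V1: volumes of the cells, upper bound.
Proof: the sets `c1 N i t`, `t < T`, are disjoint, measurable and contained in the box
`∏ [i h / N, (i h + 1)/N)` of volume `N^(-card)` (`Real.volume_pi_Ico`). For the last assertion
`c1 N 0 0` contains the box `(0, 1/(N (card+1)))^κ`. -/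
def StV1 : Prop := ∀ (κ : Type) [Fintype κ] [DecidableEq κ] (N : ℕ), 0 < N →
  (∀ (i : κ → ℕ) (T : ℕ), ∑ t ∈ range T, (volume (c1 N i t)).toReal ≤
    (1 / (N : ℝ)) ^ Fintype.card κ) ∧ 0 < (volume (c1 N (fun _ : κ => 0) 0)).toReal

/-- V2: volumes of the cells of the square of the marginal, lower bound.
Proof: `∑_{t1,t2<N} vol (c2 ..)` is the volume of the union, which contains the set of the `u` in the box
(`⌊N u (some h)⌋ = i h`, `⌊N u none⌋ = i'`, `u ≥ 0`) with `∑_{h ≠ m} θ h < (K-1)/2 + s`,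
`θ h = N u (some h) - i h`: there `N ∑ u (some h) < ∑_{h≠m} i h + (K-1)/2 + s + i m + 1 ≤ N`, the same
for the other sum. The box has volume `N^(-(K+1))` and the part of it with
`∑_{h ≠ m} θ h ≥ (K-1)/2 + s` is (substitution `u = (i + θ)/N`, coordinates `some m` and `none` free)
`N^(-(K+1)) * vol (Bd {h // h ≠ m} s)`. (See Helper7/BG/M_CS2.lean for a similar computation.) -/
def StV2 : Prop := ∀ (ι : Type) [Fintype ι] [DecidableEq ι] (N s : ℕ) (δ : ℝ) (m : ι) (i : ι → ℕ)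
  (i' : ℕ), 0 < N → (volume (Bd {h : ι // h ≠ m} s)).toReal ≤ δ →
  2 * (∑ h ∈ univ.erase m, i h + i m + 1) + (Fintype.card ι - 1) + 2 * s ≤ 2 * N →
  2 * (∑ h ∈ univ.erase m, i h + i' + 1) + (Fintype.card ι - 1) + 2 * s ≤ 2 * N →
  (1 - δ) * (1 / (N : ℝ)) ^ (Fintype.card ι + 1) ≤
    ∑ t1 ∈ range N, ∑ t2 ∈ range N, (volume (c2 N m i i' t1 t2)).toReal

/-- CM: grouping by the sum of the cells.
Proof: group the `i` by `S = ∑ i h` (only `S < n0 ≤ T` matter, and then all `i h < T` automatically):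
`∑_{∑ i = S} ∏ g(i h)² = cf g (card κ) S` by induction on the number of variables
(`PowerSeries.coeff_mul`, `Fin n`, then transport) or by `PowerSeries.coeff_prod`. -/
def StCm : Prop := ∀ (κ : Type) [Fintype κ] [DecidableEq κ] (g : ℕ → ℕ) (w : ℕ → ℝ) (T n0 : ℕ),
  n0 ≤ T → (∀ S, n0 ≤ S → w S = 0) →
  ∑ i ∈ Fintype.piFinset (fun _ : κ => range T), w (∑ h, i h) * ∏ h, (g (i h) : ℝ) ^ 2 =
    ∑ S ∈ range n0, w S * (cf g (Fintype.card κ) S : ℝ)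

/-- GM: `GF` is a bounded cell function. Proof: `|GF| ≤ BH * Bg ^ card`; `H (∑ i) ≠ 0` gives
`i h ≤ ∑ i < n0 ≤ N`. -/
def StGm : Prop := ∀ (ι : Type) [Fintype ι] [DecidableEq ι] (N n0 Bg BH : ℕ) (g H : ℕ → ℕ),
  n0 ≤ N → (∀ i, g i ≤ Bg) → (∀ S, H S ≤ BH) → (∀ S, n0 ≤ S → H S = 0) →
  ∃ B : ℝ, 0 < B ∧ GB N (GF N g H : (ι → ℕ) → ℕ → ℝ) B

/-- EI: `∫ F²`. Proof: `GF ^ 2 ≤ H(∑i)² ∏ g²`, V1, then CM with `w = H²`. Positivity: the term `i = 0`,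
`t = 0`. -/
def StEi : Prop := StV1 → StCm → ∀ (ι : Type) [Fintype ι] [DecidableEq ι] (N n0 : ℕ) (g H : ℕ → ℕ),
  0 < N → n0 ≤ N → (∀ S, n0 ≤ S → H S = 0) →
  IG N (GF N g H : (ι → ℕ) → ℕ → ℝ) ≤ (AA g H n0 (Fintype.card ι) : ℝ) / N ^ Fintype.card ι ∧
  (H 0 ≠ 0 → g 0 ≠ 0 → 0 < IG N (GF N g H : (ι → ℕ) → ℕ → ℝ))

/-- EO: `∫ F_m²`. Proof: with `S = ∑_{h≠m} i h` the summand is
`H(S + i m) H(S + i') g(i m) g(i') ∏_{h≠m} g(i h)²` times the volume, `t1, t2 < N` automatically; when it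
is not zero `S + i m < n0` and `S + i' < n0`, so V2 applies (all terms are `≥ 0`). Sum over `i m` and
`i'`: `(∑_{j} g j H(S+j))² = Kk g H n0 S ^ 2`; then CM for `{h // h ≠ m}` with `w = Kk²`
(`Kk g H n0 S = 0` for `S ≥ n0`). -/
def StEo : Prop := StV2 → StCm → ∀ (ι : Type) [Fintype ι] [DecidableEq ι] (N n0 s : ℕ) (δ : ℝ)
  (g H : ℕ → ℕ) (m : ι), 0 < N → n0 ≤ N → (∀ S, n0 ≤ S → H S = 0) → δ ≤ 1 →
  (volume (Bd {h : ι // h ≠ m} s)).toReal ≤ δ →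
  2 * n0 + (Fintype.card ι - 1) + 2 * s ≤ 2 * N →
  (1 - δ) * (BB g H n0 (Fintype.card ι - 1) : ℝ) / N ^ (Fintype.card ι + 1) ≤
    OG N (GF N g H : (ι → ℕ) → ℕ → ℝ) m

end Pool.Agent.Helper29.H2
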