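import Pool.Agent.Helper29.H2.St2

/-!
# Project H2 (MP_3ec731_nt), statements, part 3: the certificate

Arrays of natural numbers are the digits of one number in base `2^b`, `b = 120`; products are
computed by one multiplication, rounding (down for `L`, up for `U`) by a shift and a mask. The function
`chk` is evaluated by the kernel in 7 seconds (tested).
-/

set_option autoImplicit false

namespace Pool.Agent.Helper29.H2

open Finset MeasureTheory
open Pool.Agent.Helper27.BG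

/-- forces the evaluation of `x` in the kernel -/
def sv {α : Type} (x : ℕ) (f : ℕ → α) : α :=
  match x with
  | 0 => f 0
  | k + 1 => f (k + 1)

/-- digit -/
def dg (b Z i : ℕ) : ℕ := Z / 2 ^ (b * i) % 2 ^ b

/-- mask: all the digits `i < n` equal to `2^k - 1` -/
def dmk (b n k : ℕ) : ℕ := (2 ^ (b * n) - 1) / (2 ^ b - 1) * (2 ^ k - 1)

/-- product, rounded down -/
def stL (b n β s Y Z : ℕ) : ℕ := Nat.land (Nat.shiftRight (Y * Z % 2 ^ (b * n)) s) (dmk b n β)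

/-- product, rounded up -/
def stU (b n s Y Z : ℕ) : ℕ :=
  Nat.land (Nat.shiftRight (Y * Z % 2 ^ (b * n)) s) (dmk b n (b - s)) + dmk b n 1

/-- powers, rounded down: `(false, s)` = square, `(true, s)` = multiply by `P`; `s` = shift -/
def runL (b n β P : ℕ) : List (Bool × ℕ) → ℕ → (ℕ → Bool) → Bool
  | [], Z, k => k Z
  | (c, s) :: t, Z, k => sv (stL b n β s (cond c P Z) Z) (fun Z' => runL b n β P t Z' k)

/-- powers, rounded up -/
def runU (b n β P : ℕ) : List (Bool × ℕ) → ℕ → (ℕ → Bool) → Bool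
  | [], Z, k => k Z
  | (c, s) :: t, Z, k => sv (stU b n s (cond c P Z) Z) (fun Z' =>
      cond (Nat.beq (Nat.land Z' (dmk b n β)) Z') (runU b n β P t Z' k) false)

/-- `c` blocks of length `l` -/
def seg (b l : ℕ) (f : ℕ → ℕ) : ℕ → ℕ → ℕ
  | 0, _ => 0
  | c + 1, x => f x + 2 ^ (b * l) * seg b l f c (x + l)

/-- table with 64 blocks per octave; `f x l` = value on the block of length `l` starting at `x` -/
def gen (b : ℕ) (f : ℕ → ℕ → ℕ) : ℕ → ℕ
  | 0 => seg b 1 (fun x => f x 1) 128 0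
  | o + 1 => gen b f o + 2 ^ (b * (64 * 2 ^ (o + 1))) *
      ((2 ^ (b * 2 ^ (o + 1)) - 1) / (2 ^ b - 1) *
        seg b (2 ^ (o + 1)) (fun x => f x (2 ^ (o + 1))) 64 (64 * 2 ^ (o + 1)))

/-- value of `g` on a block -/
def gv (x l : ℕ) : ℕ := 2 ^ 27 / (8 * x + 4 * l + 37)

/-- length of the block of `i` -/
def bl (i : ℕ) : ℕ := 2 ^ (Nat.log 2 i - 6)

/-- the function `g` -/
def gT (i : ℕ) : ℕ := gv (i / bl i * bl i) (bl i)

/-- table lookup: a table is a list of blocks (length, value `h`, value `v`) -/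
def lk (w : ℕ → ℕ → ℕ) : List (ℕ × ℕ × ℕ) → ℕ → ℕ
  | [], _ => 0
  | (l, h, v) :: t, S => if S < l then w h v else lk w t (S - l)

/-- total length of a table -/
def ln : List (ℕ × ℕ × ℕ) → ℕ
  | [] => 0
  | (l, _, _) :: t => l + ln t

/-- digits multiplied by the entries `v` of the table -/
def vm (b : ℕ) : List (ℕ × ℕ × ℕ) → ℕ → ℕ
  | [], _ => 0
  | (l, _, v) :: t, Z => v * (Z % 2 ^ (b * l)) + 2 ^ (b * l) * sv (Z / 2 ^ (b * l)) (vm b t)

/-- weighted sum of the digits -/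
def bs (b : ℕ) (w : ℕ → ℕ → ℕ) : List (ℕ × ℕ × ℕ) → ℕ → ℕ
  | [], _ => 0
  | (l, h, v) :: t, Z => w h v * (Z % 2 ^ (b * l) % (2 ^ b - 1)) +
      sv (Z / 2 ^ (b * l)) (bs b w t)

/-- the program: power 3520 -/
def prg : List (Bool × ℕ) := [(false,37),(true,45),(false,54),(false,55),(true,46),(false,57),
  (true,46),(false,58),(true,45),(false,60),(false,62),(false,61),(false,64),(false,64),(false,64)]

/-- blocks of the total size: length, `H`, `v` (approximation of the marginal divided by `2^26`) -/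
def tbl : List (ℕ × ℕ × ℕ) := [(53460, 1, 0), (2048, 711, 2680), (2048, 817, 2870),
  (2048, 886, 3029), (2048, 959, 3197), (2048, 1037, 3374), (2048, 1121, 3561), (2048, 1211, 3758),
  (2048, 1307, 3964), (2048, 1409, 4181), (2048, 1518, 4408), (2048, 1634, 4643),
  (2048, 1755, 4887), (2048, 1883, 5138), (2048, 2017, 5396), (2048, 2157, 5658),
  (2048, 2302, 5923), (2048, 2450, 6190), (2048, 2602, 6454), (2048, 2757, 6714),
  (2048, 2911, 6965), (2048, 3065, 7204), (2048, 3216, 7428), (2048, 3363, 7629),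
  (2048, 3501, 7805), (2048, 3629, 7948), (2048, 3744, 8054), (2048, 3843, 8114),
  (2048, 3921, 8122), (2048, 3975, 8070), (2048, 4000, 7949), (2048, 3991, 7749),
  (2048, 3943, 7459), (2048, 3847, 7064), (2048, 3695, 6542), (2048, 3474, 5868),
  (1024, 3246, 5193), (1024, 3042, 4633), (512, 2856, 4102), (512, 2700, 3672), (256, 2562, 3265),
  (256, 2449, 2931), (128, 2348, 2611), (128, 2266, 2343), (64, 2193, 2083), (64, 2134, 1860),
  (32, 2081, 1642), (32, 2038, 1451), (32, 1985, 1183), (32, 1906, 667)]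

/-- the function `H` -/
def HT (S : ℕ) : ℕ := lk (fun h _ => h) tbl S

/-- the function `v` -/
def vT (S : ℕ) : ℕ := lk (fun _ v => v) tbl S

/-- the array of the `g i` -/
def Gn : ℕ := gen 120 gv 10 % 2 ^ (120 * 129236)

/-- the array of the `(g i)^2` -/
def Pn : ℕ := gen 120 (fun x l => gv x l ^ 2) 10 % 2 ^ (120 * 129236)

/-- the certificate -/
def chk : Bool :=
  sv Pn fun P => runL 120 129236 51 P prg P fun L =>
    runU 120 129236 51 P (prg ++ [(true, 46)]) P fun U =>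
    sv (bs 120 (fun _ v => v * v) tbl L) fun D =>
    sv (bs 120 (fun h _ => h) tbl (vm 120 tbl L * Gn % 2 ^ (120 * 129236))) fun C =>
    sv (bs 120 (fun h _ => h * h) tbl U) fun A =>
    Nat.ble (10002 * 2 * 131072 * 10000 * A * 2 ^ 46 + 3521 * 2499 * 9999 * (D * 2 ^ 52) + 1)
      (3521 * 2499 * 9999 * (2 * C * 2 ^ 26))

/-- exponent and scale after a program -/
def fp : List (Bool × ℕ) → ℕ × ℕ → ℕ × ℕ
  | [], p => p
  | (c, s) :: t, p => fp t (cond c (p.1 + 1, p.2 + s) (2 * p.1, 2 * p.2 + s))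

/-! ### statements -/

/-- D1: digits of a product. Proof: `Y = ∑ dg Y i * 2^(b i)` etc.; the `S`-th convolution sum is
`< n * 2^(β+γ) ≤ 2^b`, so there are no carries. -/
def StD1 : Prop := ∀ b n β γ Y Z : ℕ, 0 < b → (∀ i, dg b Y i < 2 ^ β) → (∀ i, dg b Z i < 2 ^ γ) →
  Y < 2 ^ (b * n) → Z < 2 ^ (b * n) → n * 2 ^ (β + γ) ≤ 2 ^ b →
  ∀ S < n, dg b (Y * Z % 2 ^ (b * n)) S = ∑ i ∈ range (S + 1), dg b Y i * dg b Z (S - i)

/-- D2: shift and mask. Proof: `Nat.testBit`: `dmk b n k` has the bit `j` iff `j < b n` and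
`j % b < k` (`dmk = ∑_{i<n} (2^k - 1) 2^(b i)`, geometric sum). -/
def StD2 : Prop := ∀ b n s k Z : ℕ, 0 < b → s + k ≤ b →
  Nat.land (Nat.shiftRight Z s) (dmk b n k) < 2 ^ (b * n) ∧
  (∀ S < n, dg b (Nat.land (Nat.shiftRight Z s) (dmk b n k)) S = dg b Z S / 2 ^ s % 2 ^ k) ∧
  ∀ S, n ≤ S → dg b (Nat.land (Nat.shiftRight Z s) (dmk b n k)) S = 0

/-- D3: adding 1 to all the digits, and the mask test. -/
def StD3 : Prop := ∀ b n Z : ℕ, 0 < b → Z < 2 ^ (b * n) →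
  ((∀ S < n, dg b Z S + 1 < 2 ^ b) → Z + dmk b n 1 < 2 ^ (b * n) ∧
    ∀ S < n, dg b (Z + dmk b n 1) S = dg b Z S + 1) ∧
  ∀ β, β ≤ b → Nat.land Z (dmk b n β) = Z → ∀ S, dg b Z S < 2 ^ β

/-- D4: the generated tables. Proof: `seg` has the digits `f (x + l c)` at the places `l c` and `0`
elsewhere; multiplication by `(2^(b l) - 1)/(2^b - 1) = ∑_{j<l} 2^(b j)` fills the blocks. For
`64 * 2^(o+1) ≤ S < 128 * 2^(o+1)`: `Nat.log 2 S = 7 + o`, `bl S = 2^(o+1)`; for `S < 128`: `bl S = 1`. -/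
def StD4 : Prop := ∀ (b : ℕ) (f : ℕ → ℕ → ℕ), 0 < b → (∀ x l, f x l < 2 ^ b) → ∀ o : ℕ,
  gen b f o < 2 ^ (b * (128 * 2 ^ o)) ∧
  ∀ S < 128 * 2 ^ o, dg b (gen b f o) S = f (S / bl S * bl S) (bl S)

/-- D5: multiplication by a table. Proof: induction on the list. -/
def StD5 : Prop := ∀ (b β : ℕ) (t : List (ℕ × ℕ × ℕ)) (Z : ℕ), 0 < b → (∀ i, dg b Z i < 2 ^ β) →
  (∀ S, lk (fun _ v => v) t S * 2 ^ β ≤ 2 ^ b) → vm b t Z < 2 ^ (b * ln t) ∧
  ∀ S < ln t, dg b (vm b t Z) S = lk (fun _ v => v) t S * dg b Z S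

/-- D6: weighted sums of digits. Proof: induction on the list; the sum of the digits of
`Z % 2^(b l)` is congruent to it modulo `2^b - 1` and smaller than `2^b - 1`. -/
def StD6 : Prop := ∀ (b γ : ℕ) (w : ℕ → ℕ → ℕ) (t : List (ℕ × ℕ × ℕ)) (Z : ℕ), 0 < b →
  (∀ i, dg b Z i < 2 ^ γ) → ln t * 2 ^ γ < 2 ^ b - 1 →
  bs b w t Z = ∑ S ∈ range (ln t), lk w t S * dg b Z S

/-- D7: the powers rounded down. Proof: induction on the list; invariant
`dg Z S * 2^e ≤ cf g m S` for `S < n`, digits `< 2^β`, `Z < 2^(b n)`;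
`cf g (m + m') S = ∑_{i ≤ S} cf g m i * cf g m' (S - i)` (`PowerSeries.coeff_mul`, `pow_add`), `D1` with
`β = γ`, `D2` with `k = β`. `sv x f = f x` (cases on `x`). -/
def StD7 : Prop := StD1 → StD2 → ∀ (b n β P : ℕ) (g : ℕ → ℕ), 0 < b → n * 2 ^ (β + β) ≤ 2 ^ b →
  P < 2 ^ (b * n) → (∀ i, dg b P i < 2 ^ β) → (∀ S < n, dg b P S = g S ^ 2) →
  ∀ (t : List (Bool × ℕ)) (Z m e : ℕ) (k : ℕ → Bool), (∀ p ∈ t, p.2 + β ≤ b) → Z < 2 ^ (b * n) →
  (∀ i, dg b Z i < 2 ^ β) → (∀ S < n, dg b Z S * 2 ^ e ≤ cf g m S) →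
  runL b n β P t Z k = true → ∃ L, k L = true ∧ L < 2 ^ (b * n) ∧ (∀ i, dg b L i < 2 ^ β) ∧
    ∀ S < n, dg b L S * 2 ^ (fp t (m, e)).2 ≤ cf g (fp t (m, e)).1 S

/-- D8: the powers rounded up. Proof: the same with D2 (`k = b - s`), D3. (The digits of the
product are `< 2^b` and `0 < s`, so the digits after the shift are `< 2^(b-1)` and adding 1 is harmless:
this is why `1 ≤ p.2` and `2 ≤ b`.) -/
def StD8 : Prop := StD1 → StD2 → StD3 → ∀ (b n β P : ℕ) (g : ℕ → ℕ), 2 ≤ b → β ≤ b →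
  n * 2 ^ (β + β) ≤ 2 ^ b →
  P < 2 ^ (b * n) → (∀ i, dg b P i < 2 ^ β) → (∀ S < n, dg b P S = g S ^ 2) →
  ∀ (t : List (Bool × ℕ)) (Z m e : ℕ) (k : ℕ → Bool), (∀ p ∈ t, 1 ≤ p.2 ∧ p.2 ≤ b) →
  Z < 2 ^ (b * n) → (∀ i, dg b Z i < 2 ^ β) → (∀ S < n, cf g m S ≤ dg b Z S * 2 ^ e) →
  runU b n β P t Z k = true → ∃ U, k U = true ∧ U < 2 ^ (b * n) ∧ (∀ i, dg b U i < 2 ^ β) ∧
    ∀ S < n, cf g (fp t (m, e)).1 S ≤ dg b U S * 2 ^ (fp t (m, e)).2

/-- LN: linearisation of the square. Proof: `K² ≥ 2 K V - V²` with `V = 2^26 v(S)`, multiplied by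
`L(S) ≥ 0`, and `∑_S Kk(S) v(S) L(S) = ∑_T H(T) ∑_{i ≤ T} v(i) L(i) g(T - i)` (exchange of sums). -/
def StLn : Prop := ∀ (g H v L a : ℕ → ℕ) (n0 c e : ℕ), (∀ S < n0, L S * 2 ^ e ≤ a S) →
  2 ^ e * (2 * 2 ^ c * ∑ T ∈ range n0, H T * ∑ i ∈ range (T + 1), (v i * L i) * g (T - i)) ≤
    ∑ S ∈ range n0, Kk g H n0 S ^ 2 * a S + 2 ^ e * (2 ^ (2 * c) * ∑ S ∈ range n0, v S * v S * L S)

/-- CK: the kernel computation. -/
def StCk : Prop := chk = true

/-- NU: the numerical inequality. Proof: `chk = true` and D1, D4 - D8, LN with `b = 120`,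
`n = 129236`, `β = 51`, `g = gT`, `H = HT`, `v = vT`, `c = 26`: `fp prg (1, 0) = (3520, 161096)` and
`fp (prg ++ [(true, 46)]) (1, 0) = (3521, 161142)` (decide). `ln tbl = 129236`, all entries `v < 2^13`,
digits of `vm` are `< 2^64`, those of `vm * Gn` are `< 2^64 * 2^22 * 2^17 = 2^103`, the weighted sums
of digits: `129236 * 2^103 < 2^120 - 1`. `gT i < 2^22`. -/
def StNu : Prop := StD1 → StD2 → StD3 → StD4 → StD5 → StD6 → StD7 → StD8 → StLn → StCk →
  10002 * 2 * 131072 * 10000 * AA gT HT 129236 3521 < 3521 * 2499 * 9999 * BB gT HT 129236 3520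

/-- the numerical inequality for the sieve -/
def NuR : Prop := ∀ (ι : Type) [Fintype ι] [DecidableEq ι], Fintype.card ι = 3521 →
  (∃ B : ℝ, 0 < B ∧ GB 131072 (GF 131072 gT HT : (ι → ℕ) → ℕ → ℝ) B) ∧
  0 < IG 131072 (GF 131072 gT HT : (ι → ℕ) → ℕ → ℝ) ∧
  ∀ m : ι, (10002 / 10000 : ℝ) * (2 : ℕ) * IG 131072 (GF 131072 gT HT : (ι → ℕ) → ℕ → ℝ) <
    Fintype.card ι * (2499 / 10000) * OG 131072 (GF 131072 gT HT : (ι → ℕ) → ℕ → ℝ) m

/-- NR: from integers to `NuR`. Proof: GM, EI, EO (`s = 76`, `δ = 1/10000`, CH for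
`{h // h ≠ m}`: its cardinality is `3520`), `2 * 129236 + 3520 + 152 = 2 * 131072`. -/
def StNr : Prop := StGm → StV1 → StV2 → StCm → StEi → StEo → StCh →
  10002 * 2 * 131072 * 10000 * AA gT HT 129236 3521 < 3521 * 2499 * 9999 * BB gT HT 129236 3520 →
  NuR

end Pool.Agent.Helper29.H2
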