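import Pool.Agent.Helper27.BG.NT
import Pool.Agent.Helper90.MT.Mod
import Pool.Agent.Helper71.BG.M_BIL
import Pool.Agent.Helper96.BG.M_FRM
import Pool.Agent.Helper41.BG.M_LAM
import Pool.Agent.Helper41.BG.M_PRS
import Pool.Agent.Helper11.BG.M_MRG
import Pool.Agent.Helper3.BG.M_VBD
import Pool.Agent.Helper39.BG.M_TUP
import Pool.Agent.Helper89.BG.M_TV2
import Pool.Agent.Helper22.BG.M_SWS
import Pool.Agent.Helper46.BG.M_DDW
import Pool.Agent.Helper32.BG.M_MER
import Pool.Agent.Helper34.BG.M_ERR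
import Pool.Agent.Helper62.BG.M_ONE
import Pool.Agent.Helper40.BG.M_MUL
import Pool.Agent.Helper42.BG.M_BVF
import Pool.Agent.Helper16.BG.M_ETA
import Pool.Agent.Helper29.H2.M_C1
import Pool.Agent.Helper71.H2.M_C2
import Pool.Agent.Helper29.H2.M_OK
import Pool.Agent.Helper67.H2.M_MN
import Pool.Agent.Helper29.H2.M_VS
import Pool.Agent.Helper73.H2.M_BL
import Pool.Agent.Helper40.H2.M_MY
import Pool.Agent.Helper87.H2.M_FI
import Pool.Agent.Helper83.H2.M_CH
import Pool.Agent.Helper28.H2.M_V1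
import Pool.Agent.Helper83.H2.M_V2
import Pool.Agent.Helper69.H2.M_CM
import Pool.Agent.Helper29.H2.M_GM
import Pool.Agent.Helper94.H2.M_EI
import Pool.Agent.Helper83.H2.M_EO
import Pool.Agent.Helper8.H2.M_D1
import Pool.Agent.Helper96.H2.M_D2
import Pool.Agent.Helper88.H2.M_D3
import Pool.Agent.Helper2.H2.M_D4
import Pool.Agent.Helper6.H2.M_D5
import Pool.Agent.Helper80.H2.M_D6
import Pool.Agent.Helper2.H2.M_D7
import Pool.Agent.Helper2.H2.M_D8
import Pool.Agent.Helper29.H2.M_LN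
import Pool.Agent.Helper29.H2.M_CK
import Pool.Agent.Helper13.H2.M_NU
import Pool.Agent.Helper29.H2.M_NR

/-!
# Project H2: assembly
-/

set_option autoImplicit false

namespace Pool.Agent.Helper29.H2

open Finset MeasureTheory
open Pool.Agent.Helper27.BG

theorem pLm : StLm := Pool.Agent.Helper27.BG.hLAM
theorem pBil : StBil := Pool.Agent.Helper27.BG.hBil
theorem pFrm : StFrm := Pool.Agent.Helper27.BG.hFrm
theorem pPrs : StPrs := Pool.Agent.Helper27.BG.hPRS
theorem pMrg : StMrg := Pool.Agent.Helper27.BG.hMrg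
theorem pVbd : StVbd := Pool.Agent.Helper27.BG.hVbd
theorem pTup : StTup := Pool.Agent.Helper27.BG.hTup
theorem pTV2 : StTV2 := Pool.Agent.Helper27.BG.hTV2
theorem pSWs : StSWs := Pool.Agent.Helper27.BG.hSWs
theorem pDDw : StDDw := Pool.Agent.Helper27.BG.hDDw
theorem pMer : StMer := Pool.Agent.Helper32.BG.hMer
theorem pErr : StErr := Pool.Agent.Helper27.BG.hErr
theorem pOne : StOne := Pool.Agent.Helper27.BG.hOne
theorem pMul : StMul := Pool.Agent.Helper27.BG.hMul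
theorem pBVf : StBVf := Pool.Agent.Helper27.BG.hBVf Pool.Agent.Helper27.BG.NT.bv
theorem pEta : StEta := Pool.Agent.Helper27.BG.hEta

theorem pMn : MnC := hMn pTup pErr pMer hC1 pMul pOne pSWs pDDw pLm hOk pEta
theorem pVs : VsC := hVs pTV2 pErr pMer hC2 pMul pOne pSWs pDDw
theorem pBl : BlC := hBl pBil pFrm pLm pPrs pVbd pMrg pErr pMer hOk pBVf pEta pVs
  Pool.Agent.Helper27.BG.NT.pnt
theorem pNu : 10002 * 2 * 131072 * 10000 * AA gT HT 129236 3521 <
    3521 * 2499 * 9999 * BB gT HT 129236 3520 :=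
  hNu hD1 hD2 hD3 hD4 hD5 hD6 hD7 hD8 hLn hCk
theorem pNr : NuR := hNr hGm hV1 hV2 hCm hEi hEo hCh pNu

/-- every admissible set of 3521 naturals contains an exact pattern of three primes -/
theorem top_set (H : Finset ℕ) (hc : H.card = 3521)
    (hadm : ∀ p : ℕ, p.Prime → ∃ r : ℕ, ∀ h ∈ H, ¬ p ∣ r + h) :
    ∃ T ⊆ H, T.card = 3 ∧ {n : ℕ | ∀ k, (∃ s ∈ T, ∃ t ∈ T, n + s ≤ k ∧ k ≤ n + t) →
      (k.Prime ↔ ∃ t ∈ T, k = n + t)}.Infinite := by
  classical
  have hcι : Fintype.card {x // x ∈ H} = 3521 := by rw [Fintype.card_coe, hc]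
  obtain ⟨⟨B, hB, hGB⟩, hI, hO⟩ := pNr {x // x ∈ H} hcι
  exact hFi Pool.Agent.Helper90.MT.mod 2 H
    (hMy pMn pBl pEta pLm hOk Pool.Agent.Helper27.BG.NT.bump {x // x ∈ H} 131072
      (GF 131072 gT HT) B 2 (by rw [hcι]; norm_num) (by norm_num) hB hGB (by norm_num) hI hO
      (fun h => (h : ℕ))) hadm

end Pool.Agent.Helper29.H2
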